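import Pool.Agent.NH8.GD.Fin
import Pool.Agent.NH8.GD.Rk
import Pool.Agent.NH8.GD.Stb
import Pool.Agent.NH8.GD.Stu
import Pool.Agent.NH8.GD.Nf3
import Pool.Agent.NH29.GN.Fin3
import Pool.Agent.NH29.GN.U1
import Pool.Agent.NH29.GN.U2
import Pool.Agent.NH29.GN.U3
import Pool.Agent.NH29.GN.U4
import Pool.Agent.NH29.GN.Der
import Pool.Agent.NH29.GN.Alg
import Pool.Agent.NH29.GN.Rel
import Pool.Agent.NH29.GN.Lin
import Pool.Agent.NH29.GN.Fine
import Pool.Agent.NH29.GN.Ueu

/-!
MP_651af7_nt, Q1: integral points of bounded degree with respect to `D = F_1 ⋯ F_q = 0`, for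
`q ≥ n r + 2` Zariski-general hypersurface sections of large degree of an arbitrary projective
variety of dimension `n`.

Let `K` be an algebraically closed field of characteristic `0`, and `k` a subfield of `K` (for
instance `ℚ`, a number field, or `K`). Let `V` be a closed subset of projective space, given by
forms with coefficients in `k`, of dimension at most `n`: there are `n + 1` linear forms over `k`
without common zero on `V`. Let `r ≥ 1`, `q ≥ n r + 2`, and let `d_1, …, d_q` be integers with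
`r (q - 1) < (q - n r - 1) (d_b + 2 - r)` for all `b`; this holds for example if all
`d_b ≥ n r ^ 2 + 2 r - 1`.

THEOREM. There is a nonzero polynomial `Φ`, with coefficients in `k`, in the coefficients of `q`
forms of degrees `d_1, …, d_q`, with the following property. Let `F = (F_1, …, F_q)` be forms of
degrees `d_1, …, d_q` with coefficients in `K`, such that `Φ (F) ≠ 0`.
(1) Let `K` be algebraic over `ℚ`. For every finite subset `T` of `K`, `V` has only finitely many
    points of degree at most `r` over the number field `ℚ(T)` which are integral over `ℤ[T]` with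
    respect to the divisor `D = ∑ {F_b = 0}`: all quotients of the monomials of degree `∑ d_b` by
    `F_1 ⋯ F_q` are integral over `ℤ[T]` at the point. (Every ring of `S`-integers of a number
    field is of the form `ℤ[T]`.)
(2) The number of these points is bounded by a number that depends only on `V`, the `d_b`, `r` and
    `T`, for all `F` with coefficients in `ℤ[T]` and `Φ (F) ≠ 0`. The same holds for arbitrary `K`,
    if the ring `ℤ[T]` is integrally closed and `V` is defined over its field of fractions.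
(3) (For arbitrary `K`.) For every finitely generated subgroup `Γ` of the multiplicative group of
    `K`, and `1 ≤ m ≤ r`, the number of the `m`-tuples `(P_1, …, P_m)` of `K`-points of `V` off `D`
    with all the quotients `∏_l F_b (P_l) ^ (d_b') / ∏_l F_b' (P_l) ^ (d_b)` in `Γ` is bounded by a
    number that depends only on `V`, the `d_b`, `r` and `Γ`, for all `F` with `Φ (F) ≠ 0`.
-/

set_option autoImplicit false

namespace Pool.Agent.Results.MP_651af7_nt.GeneralComplementsBoundedDegree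

open MvPolynomial
open scoped LinearAlgebra.Projectivization

variable {k K : Type} [Field k] [Field K] [Algebra k K] {M q : ℕ}

/-- The closed subset of the projective space of dimension `M` given by the forms in `V` has
dimension at most `n`: there are `n + 1` linear forms without common zero on it. -/
def DimLE (K : Type) [Field K] [Algebra k K] (V : Set (MvPolynomial (Fin (M + 1)) k)) (n : ℕ) :
    Prop :=
  ∃ ℓ : Fin (n + 1) → MvPolynomial (Fin (M + 1)) k, (∀ j, (ℓ j).IsHomogeneous 1) ∧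
    ∀ y : Fin (M + 1) → K, (∀ H ∈ V, aeval y H = 0) → (∀ j, aeval y (ℓ j) = 0) → y = 0

/-- The indices of the coefficients of `q` forms of degrees `d i` in `M + 1` variables. -/
abbrev Index (M : ℕ) {q : ℕ} (d : Fin q → ℕ) : Type :=
  (i : Fin q) × {β : Fin (M + 1) →₀ ℕ // β.degree = d i}

/-- `F` is a family of forms of degrees `d i`, and `Φ (F) ≠ 0`. -/
def General {d : Fin q → ℕ} (Φ : MvPolynomial (Index M d) k)
    (F : Fin q → MvPolynomial (Fin (M + 1)) K) : Prop :=
  (∀ i, (F i).IsHomogeneous (d i)) ∧ aeval (fun s : Index M d => coeff s.2.1 (F s.1)) Φ ≠ 0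

/-- The points of `V` off the hypersurfaces which have degree at most `r` over the field generated
by `T`, and which are integral over `ℤ[T]` with respect to these hypersurfaces. -/
def IntegralPoints (V : Set (MvPolynomial (Fin (M + 1)) k))
    (F : Fin q → MvPolynomial (Fin (M + 1)) K) (d : Fin q → ℕ) (T : Finset K) (r : ℕ) :
    Set (ℙ K (Fin (M + 1) → K)) :=
  {P | ∃ (x : Fin (M + 1) → K) (hx : x ≠ 0), P = Projectivization.mk K x hx ∧
    -- the coordinates generate an extension of degree at most `r`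
    (∃ E : IntermediateField (Subfield.closure (T : Set K)) K,
      FiniteDimensional (Subfield.closure (T : Set K)) E ∧
      Module.finrank (Subfield.closure (T : Set K)) E ≤ r ∧ ∀ i, x i ∈ E) ∧
    -- the point is in `V` and off the hypersurfaces
    (∀ H ∈ V, aeval x H = 0) ∧ (∀ b, eval x (F b) ≠ 0) ∧
    -- integrality
    ∀ α : Fin (M + 1) →₀ ℕ, α.degree = ∑ b, d b →
      IsIntegral (Subring.closure (T : Set K)) ((∏ i, x i ^ α i) / ∏ b, eval x (F b))}

/-- The `m`-tuples of points of `V` off the hypersurfaces, with the quotients of the products of the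
values of the forms in the group `Γ`. -/
def UnitTuples (V : Set (MvPolynomial (Fin (M + 1)) k))
    (F : Fin q → MvPolynomial (Fin (M + 1)) K) (d : Fin q → ℕ) (m : ℕ)
    (Γ : Subgroup Kˣ) : Set (Fin m → ℙ K (Fin (M + 1) → K)) :=
  {P | (∀ l, ∀ H ∈ V, aeval (P l).rep H = 0) ∧ (∀ l b, eval (P l).rep (F b) ≠ 0) ∧
    ∀ b b', ∃ γ ∈ Γ, (∏ l, eval (P l).rep (F b)) ^ d b' / (∏ l, eval (P l).rep (F b')) ^ d b =
      (γ : K)}

/-- The conclusion of the theorem. -/
def Conclusion (K : Type) [Field K] [CharZero K] [Algebra k K]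
    (V : Set (MvPolynomial (Fin (M + 1)) k)) (d : Fin q → ℕ) (r : ℕ) : Prop :=
  ∃ Φ : MvPolynomial (Index M d) k, Φ ≠ 0 ∧
    -- (1)
    (Algebra.IsAlgebraic ℚ K → ∀ F : Fin q → MvPolynomial (Fin (M + 1)) K, General Φ F →
      ∀ T : Finset K, (IntegralPoints V F d T r).Finite) ∧
    -- (2)
    (∀ T : Finset K, (Algebra.IsAlgebraic ℚ K ∨
        (IsIntegrallyClosed (Subring.closure (T : Set K)) ∧
          ∀ H ∈ V, ∀ β, algebraMap k K (coeff β H) ∈ Subfield.closure (T : Set K))) →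
      ∃ N : ℕ, ∀ F : Fin q → MvPolynomial (Fin (M + 1)) K, General Φ F →
        (∀ i β, coeff β (F i) ∈ Subring.closure (T : Set K)) →
          (IntegralPoints V F d T r).encard ≤ N) ∧
    -- (3)
    ∀ Γ : Subgroup Kˣ, Γ.FG → ∃ N : ℕ, ∀ F : Fin q → MvPolynomial (Fin (M + 1)) K,
      General Φ F → ∀ m, 1 ≤ m → m ≤ r → (UnitTuples V F d m Γ).encard ≤ N

section Proof

open Pool.Agent.NH29.GN Pool.Agent.NH8.GD

theorem unitTuples_eq {V : Set (MvPolynomial (Fin (M + 1)) k)} {d : Fin q → ℕ}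
    {F : Fin q → MvPolynomial (Fin (M + 1)) K} (hF : ∀ i, (F i).IsHomogeneous (d i))
    (m : ℕ) (Γ : Subgroup Kˣ) :
    UnitTuples V F d m Γ = TupK V (fun s : Idx M d => coeff s.2.1 (F s.1)) m Γ := by
  ext P
  simp only [UnitTuples, TupK, Set.mem_ofPred_eq, qn, pv, Pool.Agent.NH29.GN.Fn.fv_eq hF]

/-- the forms over `K` -/
def VK (K : Type) [Field K] [Algebra k K] (V : Set (MvPolynomial (Fin (M + 1)) k)) :
    Set (MvPolynomial (Fin (M + 1)) K) :=
  (MvPolynomial.map (algebraMap k K)) '' V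

theorem vk_iff {V : Set (MvPolynomial (Fin (M + 1)) k)} (x : Fin (M + 1) → K) :
    (∀ H ∈ VK K V, aeval x H = 0) ↔ ∀ H ∈ V, aeval x H = 0 := by
  constructor
  · intro h H hH
    have h1 := h _ ⟨H, hH, rfl⟩
    rwa [aeval_map_algebraMap] at h1
  · rintro h _ ⟨H, hH, rfl⟩
    rw [aeval_map_algebraMap]
    exact h H hH

theorem tup_eq {V : Set (MvPolynomial (Fin (M + 1)) k)} {d : Fin q → ℕ} (t : Idx M d → K) (m : ℕ)
    (Γ : Subgroup Kˣ) : Tup (VK K V) t m Γ = TupK V t m Γ := by
  ext P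
  simp only [Tup, TupK, Set.mem_ofPred_eq, vk_iff]

theorem integral_subset {V : Set (MvPolynomial (Fin (M + 1)) k)} {d : Fin q → ℕ}
    {F : Fin q → MvPolynomial (Fin (M + 1)) K} (hF : ∀ i, (F i).IsHomogeneous (d i))
    (T : Finset K) (r : ℕ) :
    IntegralPoints V F d T r ⊆ Pts (VK K V) (fun s : Idx M d => coeff s.2.1 (F s.1)) T r := by
  rintro P ⟨x, hx, rfl, ⟨E, hE1, hE2, hE3⟩, hV, hoff, hint⟩
  refine ⟨E, x, hx, hE1, hE2, rfl, hE3, (vk_iff x).2 hV, fun b => ?_, fun α hα => ?_⟩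
  · rw [Pool.Agent.NH29.GN.Fn.fv_eq hF]
    exact hoff b
  · have h1 := hint α hα
    have h2 : ∏ b, fv (fun s : Idx M d => coeff s.2.1 (F s.1)) x b = ∏ b, eval x (F b) :=
      Finset.prod_congr rfl fun b _ => Pool.Agent.NH29.GN.Fn.fv_eq hF x b
    rw [h2]
    exact h1

theorem card_bound {V : Set (MvPolynomial (Fin (M + 1)) K)} {d : Fin q → ℕ} (t : Idx M d → K)
    (T : Finset K) (r N : ℕ) (Γ : Subgroup Kˣ)
    (h1 : ∀ P ∈ Pts V t T r, ∃ m, 1 ≤ m ∧ m ≤ r ∧ ∃ R ∈ Tup V t m Γ, ∃ l, R l = P)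
    (h2 : ∀ m, 1 ≤ m → m ≤ r → (Tup V t m Γ).encard ≤ N) :
    (Pts V t T r).encard ≤ ((∑ m ∈ Finset.range (r + 1), N * m : ℕ) : ℕ∞) := by
  classical
  have hfin : ∀ m, 1 ≤ m → m ≤ r → ∃ S : Finset (Fin m → ℙ K (Fin (M + 1) → K)),
      S.card ≤ N ∧ ∀ R ∈ Tup V t m Γ, R ∈ S := by
    intro m hm1 hm2
    have h3 := h2 m hm1 hm2
    have h4 : (Tup V t m Γ).Finite := Set.finite_of_encard_le_coe h3
    refine ⟨h4.toFinset, ?_, fun R hR => (Set.Finite.mem_toFinset h4).2 hR⟩
    rw [h4.encard_eq_coe_toFinset_card] at h3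
    exact_mod_cast h3
  have hfin' : ∀ m, ∃ S : Finset (ℙ K (Fin (M + 1) → K)), S.card ≤ N * m ∧
      (1 ≤ m → m ≤ r → ∀ R ∈ Tup V t m Γ, ∀ l, R l ∈ S) := by
    intro m
    by_cases hm : 1 ≤ m ∧ m ≤ r
    · obtain ⟨S, hS1, hS2⟩ := hfin m hm.1 hm.2
      refine ⟨S.biUnion fun R => Finset.univ.image R, ?_, ?_⟩
      · refine (Finset.card_biUnion_le_card_mul _ _ m fun R _ => ?_).trans
          (Nat.mul_le_mul_right _ hS1)
        exact Finset.card_image_le.trans (by rw [Finset.card_univ, Fintype.card_fin])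
      · intro _ _ R hR l
        rw [Finset.mem_biUnion]
        exact ⟨R, hS2 R hR, Finset.mem_image.2 ⟨l, Finset.mem_univ _, rfl⟩⟩
    · exact ⟨∅, by simp, fun h3 h4 => absurd ⟨h3, h4⟩ hm⟩
  choose S hS1 hS2 using hfin'
  have hsub : Pts V t T r ⊆ ((Finset.range (r + 1)).biUnion S : Finset _) := by
    intro P hP
    obtain ⟨m, hm1, hm2, R, hR, l, hl⟩ := h1 P hP
    rw [Finset.mem_coe, Finset.mem_biUnion]
    refine ⟨m, Finset.mem_range.2 (by omega), ?_⟩
    rw [← hl]
    exact hS2 m hm1 hm2 R hR l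
  refine (Set.encard_le_encard hsub).trans ?_
  rw [Set.encard_coe_eq_coe_finsetCard]
  exact_mod_cast Finset.card_biUnion_le.trans (Finset.sum_le_sum fun m _ => hS1 m)

theorem conclusion [IsAlgClosed K] [CharZero K] (hUE : UE K) {n r : ℕ}
    {V : Set (MvPolynomial (Fin (M + 1)) k)} (hV : ∀ H ∈ V, ∃ e, H.IsHomogeneous e)
    (hn : DimLE K V n) {d : Fin q → ℕ} (hq : n * r + 2 ≤ q)
    (hd : ∀ b, r * (q - 1) < (q - n * r - 1) * (d b + 2 - r)) : Conclusion K V d r := by
  classical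
  have hk : CharZero k := (algebraMap k K).charZero
  obtain ⟨ℓ, hℓ, hℓ0⟩ := hn
  obtain ⟨Φ, hΦ, h1⟩ := Pool.Agent.NH8.GD.Fn.unif (K := K) (δ := r)
    Pool.Agent.NH8.GD.stb (Pool.Agent.NH8.GD.stc der alg rel lin rk)
    Pool.Agent.NH8.GD.stu (ueu fine K hUE) hV hℓ (Pool.Agent.NH29.GN.Fn.noZero_of_points hℓ0) hq hd
  have hVK : ∀ H ∈ VK K V, ∃ e, H.IsHomogeneous e := by
    rintro _ ⟨H, hH, rfl⟩
    obtain ⟨e, he⟩ := hV H hH
    exact ⟨e, he.map _⟩
  have h2 : ∀ T : Finset K, (Algebra.IsAlgebraic ℚ K ∨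
      (IsIntegrallyClosed (Subring.closure (T : Set K)) ∧
        ∀ H ∈ V, ∀ β, algebraMap k K (coeff β H) ∈ Subfield.closure (T : Set K))) →
      ∃ N : ℕ, ∀ F : Fin q → MvPolynomial (Fin (M + 1)) K, General Φ F →
        (∀ i β, coeff β (F i) ∈ Subring.closure (T : Set K)) →
          (Pts (VK K V) (fun s : Idx M d => coeff s.2.1 (F s.1)) T r).encard ≤ N := by
    intro T hT
    obtain ⟨Γ, hΓ, hΓT⟩ : ∃ Γ : Subgroup Kˣ, Γ.FG ∧ ∀ t : Idx M d → K,
        (∀ s, t s ∈ Subring.closure (T : Set K)) →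
        ∀ P ∈ Pts (VK K V) t T r, ∃ m, 1 ≤ m ∧ m ≤ r ∧ ∃ R ∈ Tup (VK K V) t m Γ, ∃ l, R l = P := by
      rcases hT with halg | ⟨hT1, hT2⟩
      · exact nf2 K M q r (VK K V) hVK d T
      · refine nf3 K M q r (VK K V) hVK d T hT1 ?_
        rintro _ ⟨H, hH, rfl⟩ β
        rw [coeff_map]
        exact hT2 H hH β
    obtain ⟨N, hN⟩ := h1 Γ hΓ
    refine ⟨∑ m ∈ Finset.range (r + 1), N * m, fun F hF hFT => ?_⟩
    refine card_bound _ T r N Γ (hΓT _ fun s => hFT _ _) fun m hm1 hm2 => ?_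
    rw [tup_eq]
    exact hN _ hF.2 m hm1 hm2
  refine ⟨Φ, hΦ, fun halg F hF T => ?_, fun T hT => ?_, fun Γ hΓ => ?_⟩
  · -- all coefficients of the forms
    let T' : Finset K := T ∪ Finset.univ.image fun s : Idx M d => coeff s.2.1 (F s.1)
    have hT : ∀ i β, coeff β (F i) ∈ Subring.closure (T' : Set K) := by
      intro i β
      by_cases hβ : β.degree = d i
      · refine Subring.subset_closure ?_
        rw [Finset.mem_coe, Finset.mem_union, Finset.mem_image]
        exact Or.inr ⟨⟨i, ⟨β, hβ⟩⟩, Finset.mem_univ _, rfl⟩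
      · rw [(hF.1 i).coeff_eq_zero hβ]
        exact Subring.zero_mem _
    obtain ⟨N, hN⟩ := h2 T' (Or.inl halg)
    exact (Set.finite_of_encard_le_coe (hN F hF hT)).subset
      ((integral_subset hF.1 T r).trans (Nf.pts_mono _ _ Finset.subset_union_left _))
  · obtain ⟨N, hN⟩ := h2 T hT
    exact ⟨N, fun F hF hFT =>
      (Set.encard_le_encard (integral_subset hF.1 T r)).trans (hN F hF hFT)⟩
  · obtain ⟨N, hN⟩ := h1 Γ hΓ
    refine ⟨N, fun F hF m hm1 hm2 => ?_⟩
    rw [unitTuples_eq hF.1]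
    exact hN _ hF.2 m hm1 hm2

end Proof

theorem result {k K : Type} [Field k] [Field K] [Algebra k K] [IsAlgClosed K] [CharZero K]
    {M n q r : ℕ}
    -- the variety
    (V : Set (MvPolynomial (Fin (M + 1)) k)) (hV : ∀ H ∈ V, ∃ e, H.IsHomogeneous e)
    (hn : DimLE K V n)
    -- the degrees
    (d : Fin q → ℕ) (hq : n * r + 2 ≤ q)
    (hd : ∀ b, r * (q - 1) < (q - n * r - 1) * (d b + 2 - r)) :
    Conclusion K V d r :=
  conclusion (Pool.Agent.NH29.GN.u4 (Pool.Agent.NH29.GN.u2 Pool.Agent.NH29.GN.u1)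
    Pool.Agent.NH29.GN.u3 K) hV hn hq hd

end Pool.Agent.Results.MP_651af7_nt.GeneralComplementsBoundedDegree
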