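import Pool.Agent.NH29.GH.Fin
import Pool.Agent.NH29.GH.Nrm
import Pool.Agent.NH29.GH.Fmt
import Pool.Agent.NH29.GN.Fin3

/-!
MP_651af7_nt, Q1: a Vojta type height inequality for all algebraic points of bounded degree, without
exceptional set, with respect to `D = F_1 ⋯ F_q = 0`, for `q ≥ n r + 2` Zariski-general hypersurface
sections of large degree of an arbitrary projective variety of dimension `n`.

Let `k` be a number field. Let `V` be a closed subset of projective space, given by forms with
coefficients in `k`, of dimension at most `n`: there are `n + 1` linear forms over `k` without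
common zero on `V`. Let `r ≥ 1`, `q ≥ n r + 2`, and let `d_1, …, d_q` be positive integers with
`r (q - 1) < (q - n r - 1) (d_b + 2 - r)` for all `b`; this holds for example if all
`d_b ≥ n r ^ 2 + 2 r - 1`.

THEOREM. There is a nonzero polynomial `Φ`, with coefficients in `k`, in the coefficients of `q`
forms of degrees `d_1, …, d_q`, with the following property. For all number fields `κ` which contain
`k` and all finite sets `P` of primes there is a constant `A > 0` such that for all forms
`F = (F_1, …, F_q)` of degrees `d_1, …, d_q` over `κ` with `Φ (F) ≠ 0`, all extensions `E` of `κ` of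
degree at most `r`, and all `E`-points `x` of `V` off `D`:
(1) `h (x) ≤ A (1 + ∑ h (F_b) + N_P (D, x))`;
(2) `m_P (D, x) ≤ (∑ d_b - 1 / A) h (x) + 1 + 2 ∑ h (F_b)`.
Here `h` is the absolute logarithmic height, `N_P (D, x)` is the counting function, the sum over all
`b` and all places `w` of `E` which are finite and not over primes in `P`, and `m_P (D, x)` is the
proximity function, the sum over all `b` and all other places `w` of `E`, of the local heights
  `log (|F_b|_w |x|_w ^ {d_b} / |F_b (x)|_w)`,
with the usual normalization (divided by the degree of `E`). So `h_D = (∑ d_b) h + O (1)`,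
`m_P (D, x) = ∑_{v in S} λ_{D,v} (x) + O (1)` for the set `S` of the places over `∞` and the primes
in `P`, and (2) is `∑_{v in S} λ_{D,v} (x) ≤ (1 - c) h_D (x) + C` with `c > 0`, for all algebraic
points `x` of degree at most `r` off `D`, with constants that do not depend on `x` (and `C` is
linear in the height of `F`). As every finite set of places of `κ` is contained in such a set `S`,
the same holds for all finite sets `S` of places.
-/

set_option autoImplicit false

namespace Pool.Agent.Results.MP_651af7_nt.HeightInequality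

open MvPolynomial Module Height NumberField

variable {k : Type} [Field k] {M q : ℕ}

/-- The closed subset of the projective space of dimension `M` given by the forms in `V` has
dimension at most `n`: there are `n + 1` linear forms without common zero on it. -/
def DimLE (V : Set (MvPolynomial (Fin (M + 1)) k)) (n : ℕ) : Prop :=
  ∃ ℓ : Fin (n + 1) → MvPolynomial (Fin (M + 1)) k, (∀ j, (ℓ j).IsHomogeneous 1) ∧
    ∀ y : Fin (M + 1) → AlgebraicClosure k,
      (∀ H ∈ V, aeval y H = 0) → (∀ j, aeval y (ℓ j) = 0) → y = 0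

/-- The indices of the coefficients of `q` forms of degrees `d i` in `M + 1` variables. -/
abbrev Index (M : ℕ) {q : ℕ} (d : Fin q → ℕ) : Type :=
  (i : Fin q) × {β : Fin (M + 1) →₀ ℕ // β.degree = d i}

/-- `F` is a family of forms of degrees `d i`, and `Φ (F) ≠ 0`. -/
def General {κ : Type} [Field κ] [Algebra k κ] {d : Fin q → ℕ} (Φ : MvPolynomial (Index M d) k)
    (F : Fin q → MvPolynomial (Fin (M + 1)) κ) : Prop :=
  (∀ i, (F i).IsHomogeneous (d i)) ∧ aeval (fun s : Index M d => coeff s.2.1 (F s.1)) Φ ≠ 0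

/-- The family of the coefficients of a form of degree `e`. -/
def coeffs {κ : Type} [Field κ] (e : ℕ) (F : MvPolynomial (Fin (M + 1)) κ) :
    {β : Fin (M + 1) →₀ ℕ // β.degree = e} → κ :=
  fun β => coeff β.1 F

/-- The absolute logarithmic height of a point of projective space. -/
noncomputable def absHeight {E : Type} [Field E] [NumberField E] {ι : Type} (x : ι → E) : ℝ :=
  logHeight x / (finrank ℚ E : ℝ)

/-- The local height `log (|F|_w |x|_w ^ e / |F (x)|_w)` of the point `x` over `E`, with respect to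
the hypersurface `F = 0`, where `F` is a form of degree `e` over `κ`, and `w` an absolute value of
`E`. -/
noncomputable def localHeight {κ E : Type} [Field κ] [Field E] [Algebra κ E] (w : E → ℝ) (e : ℕ)
    (F : MvPolynomial (Fin (M + 1)) κ) (x : Fin (M + 1) → E) : ℝ :=
  Real.log ((⨆ β, w (algebraMap κ E (coeffs e F β))) * (⨆ a, w (x a)) ^ e / w (aeval x F))

/-- The counting function of the hypersurface `F = 0` at the point `x` over `E`: the sum over the
finite places which are not over primes in `P`, divided by the degree of `E`. -/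
noncomputable def counting {κ E : Type} [Field κ] [Field E] [NumberField E] [Algebra κ E]
    (P : Finset ℕ) (e : ℕ) (F : MvPolynomial (Fin (M + 1)) κ) (x : Fin (M + 1) → E) : ℝ :=
  (∑ᶠ w : {w : FinitePlace E // ∀ p ∈ P, w (p : E) = 1}, localHeight w.1 e F x) /
    (finrank ℚ E : ℝ)

/-- The proximity function of the hypersurface `F = 0` at the point `x` over `E`: the sum over the
infinite places and the places over primes in `P`, divided by the degree of `E`. -/
noncomputable def proximity {κ E : Type} [Field κ] [Field E] [NumberField E] [Algebra κ E]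
    (P : Finset ℕ) (e : ℕ) (F : MvPolynomial (Fin (M + 1)) κ) (x : Fin (M + 1) → E) : ℝ :=
  (∑ w : InfinitePlace E, (w.mult : ℝ) * localHeight w e F x +
    ∑ᶠ w : {w : FinitePlace E // ¬ ∀ p ∈ P, w (p : E) = 1}, localHeight w.1 e F x) /
    (finrank ℚ E : ℝ)

/-- The two inequalities. -/
def Inequalities {κ E : Type} [Field κ] [NumberField κ] [Field E] [NumberField E] [Algebra κ E]
    (P : Finset ℕ) (d : Fin q → ℕ) (F : Fin q → MvPolynomial (Fin (M + 1)) κ)
    (x : Fin (M + 1) → E) (A : ℝ) : Prop :=
  -- (1)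
  absHeight x ≤
    A * (1 + ∑ b, absHeight (coeffs (d b) (F b)) + ∑ b, counting P (d b) (F b) x) ∧
  -- (2)
  ∑ b, proximity P (d b) (F b) x ≤
    (∑ b, (d b : ℝ) - 1 / A) * absHeight x + 1 + 2 * ∑ b, absHeight (coeffs (d b) (F b))

/-- The conclusion of the theorem. -/
def Conclusion (V : Set (MvPolynomial (Fin (M + 1)) k)) (d : Fin q → ℕ) (r : ℕ) : Prop :=
  ∃ Φ : MvPolynomial (Index M d) k, Φ ≠ 0 ∧
    ∀ (κ : Type) [Field κ] [NumberField κ] [Algebra k κ] (P : Finset ℕ), (∀ p ∈ P, p.Prime) →
      ∃ A : ℝ, 0 < A ∧ ∀ F : Fin q → MvPolynomial (Fin (M + 1)) κ, General Φ F →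
        ∀ (E : Type) [Field E] [NumberField E] [Algebra κ E], finrank κ E ≤ r →
          ∀ x : Fin (M + 1) → E, x ≠ 0 →
            (∀ H ∈ V, aeval x (map (algebraMap k κ) H) = 0) → (∀ b, aeval x (F b) ≠ 0) →
            Inequalities P d F x A

section Proof

open Pool.Agent.NH29.GN (Idx Mon fv val)
open Pool.Agent.NH29.GH

theorem sum_eq {κ E : Type} [Field κ] [Field E] [Algebra κ E] {e : ℕ}
    {F : MvPolynomial (Fin (M + 1)) κ} (hF : F.IsHomogeneous e) (x : Fin (M + 1) → E) :
    ∑ β : Mon M e, algebraMap κ E (coeff β.1 F) * val x β.1 = aeval x F := by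
  classical
  rw [aeval_def]
  exact (Pool.Agent.NH29.GN.Stc.eval₂_form (algebraMap κ E) x hF).symm

theorem fv_eq {κ E : Type} [Field κ] [Field E] [Algebra κ E] {d : Fin q → ℕ}
    {F : Fin q → MvPolynomial (Fin (M + 1)) κ} (hF : ∀ i, (F i).IsHomogeneous (d i))
    (x : Fin (M + 1) → E) (b : Fin q) :
    fv (K := κ) (L := E) (fun s : Idx M d => coeff s.2.1 (F s.1)) x b = aeval x (F b) :=
  sum_eq (hF b) x

theorem counting_eq {κ E : Type} [Field κ] [Field E] [NumberField E] [Algebra κ E] (P : Finset ℕ)
    {e : ℕ} {F : MvPolynomial (Fin (M + 1)) κ} (hF : F.IsHomogeneous e) (x : Fin (M + 1) → E) :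
    counting P e F x =
      cntP P (fun β : Mon M e => algebraMap κ E (coeff β.1 F)) x / (finrank ℚ E : ℝ) := by
  unfold counting cntP localHeight
  rw [sum_eq hF]
  rfl

theorem proximity_eq {κ E : Type} [Field κ] [Field E] [NumberField E] [Algebra κ E]
    (P : Finset ℕ) {e : ℕ} {F : MvPolynomial (Fin (M + 1)) κ} (hF : F.IsHomogeneous e)
    (x : Fin (M + 1) → E) :
    proximity P e F x =
      proxP P (fun β : Mon M e => algebraMap κ E (coeff β.1 F)) x / (finrank ℚ E : ℝ) := by
  unfold proximity proxP localHeight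
  rw [sum_eq hF]
  rfl

theorem logHeight_ext' {κ E : Type} [Field κ] [NumberField κ] [Field E] [NumberField E]
    [Algebra κ E] (e : ℕ) (x : Mon M e → κ) :
    logHeight (fun β => algebraMap κ E (x β)) / (finrank ℚ E : ℝ) =
      logHeight x / (finrank ℚ κ : ℝ) := by
  have : Nonempty (Mon M e) := ⟨Pool.Agent.NH29.GN.Hi.mon0 M e⟩
  have h1 := Ext.pos κ E
  have h2 := fin_pos κ
  rw [Pool.Agent.Helper259.HtExt.logHeight_ext, Ext.deg κ E]
  field_simp

theorem conclusion (fmt : FmtStm) [NumberField k] {n r : ℕ}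
    {V : Set (MvPolynomial (Fin (M + 1)) k)}
    (hV : ∀ H ∈ V, ∃ e, H.IsHomogeneous e) (hn : DimLE V n) {d : Fin q → ℕ} (hd : ∀ i, 1 ≤ d i)
    (hq : n * r + 2 ≤ q) (hnum : ∀ b, r * (q - 1) < (q - n * r - 1) * (d b + 2 - r)) :
    Conclusion V d r := by
  classical
  obtain ⟨ℓ, hℓ, hℓ0⟩ := hn
  obtain ⟨Φ, hΦ, h1⟩ := gh nrm hV hℓ (Pool.Agent.NH29.GN.Fn.noZero_of_points hℓ0) hd hq hnum
  refine ⟨Φ, hΦ, fun κ _ _ _ P hP => ?_⟩
  have hP0 : ∀ p ∈ P, p ≠ 0 := fun p hp => (hP p hp).ne_zero
  obtain ⟨A₀, hA₀⟩ := h1 κ P hP0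
  refine ⟨|A₀| + 1, by positivity, fun F hF E _ _ _ hE x hx hxV hxo => ?_⟩
  have hfv := fv_eq (E := E) hF.1 x
  have hpt : PtD V (fun s : Idx M d => coeff s.2.1 (F s.1)) x := by
    refine ⟨hx, fun H hH => ?_, fun b => ?_⟩
    · have h2 := hxV H hH
      rwa [aeval_def, eval₂_map] at h2
    · rw [hfv]
      exact hxo b
  have h2 := hA₀ _ hF.2 E hE x hpt
  have hcn : ∀ b, counting P (d b) (F b) x =
      cntP P (fun β : Mon M (d b) => algebraMap κ E (coeff β.1 (F b))) x / (finrank ℚ E : ℝ) :=
    fun b => counting_eq P (hF.1 b) x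
  have hcn0 : ∀ b, 0 ≤ counting P (d b) (F b) x := by
    intro b
    rw [hcn]
    refine div_nonneg ?_ (Nat.cast_nonneg _)
    refine (cnp E P hP0 M q d (fun s : Idx M d => algebraMap κ E (coeff s.2.1 (F s.1))) x b b
      ?_ ?_).1 <;>
    · rw [fv_self (κ := κ) (E := E) (fun s : Idx M d => coeff s.2.1 (F s.1)), hfv]
      exact hxo b
  have hY : ∀ b, 0 ≤ absHeight (coeffs (d b) (F b)) := fun b => nH_nonneg _
  have hS1 : 0 ≤ ∑ b, absHeight (coeffs (d b) (F b)) := Finset.sum_nonneg fun b _ => hY b
  have hS2 : 0 ≤ ∑ b, counting P (d b) (F b) x := Finset.sum_nonneg fun b _ => hcn0 b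
  have h3 : absHeight x ≤ (|A₀| + 1) *
      (1 + ∑ b, absHeight (coeffs (d b) (F b)) + ∑ b, counting P (d b) (F b) x) := by
    refine le_trans (?_ : absHeight x ≤ A₀ *
      (1 + ∑ b, absHeight (coeffs (d b) (F b)) + ∑ b, counting P (d b) (F b) x)) ?_
    · rw [Finset.sum_congr rfl fun b _ => hcn b]
      exact h2
    · refine mul_le_mul_of_nonneg_right ?_ (by positivity)
      linarith [le_abs_self A₀]
  refine ⟨h3, ?_⟩
  -- the first main theorem
  have hE0 := fin_pos E
  have h4 : ∀ b, proximity P (d b) (F b) x + counting P (d b) (F b) x =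
      absHeight (coeffs (d b) (F b)) + d b * absHeight x := by
    intro b
    have h5 := fmt E P M (d b) (fun β : Mon M (d b) => algebraMap κ E (coeff β.1 (F b))) x (by
      rw [sum_eq (hF.1 b)]
      exact hxo b)
    rw [counting_eq P (hF.1 b), proximity_eq P (hF.1 b), ← add_div, h5, add_div,
      logHeight_ext' (d b)]
    unfold absHeight
    rw [mul_div_assoc]
    rfl
  have h5 : ∑ b, proximity P (d b) (F b) x + ∑ b, counting P (d b) (F b) x =
      ∑ b, absHeight (coeffs (d b) (F b)) + (∑ b, (d b : ℝ)) * absHeight x := by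
    rw [← Finset.sum_add_distrib, Finset.sum_congr rfl fun b _ => h4 b, Finset.sum_add_distrib,
      Finset.sum_mul]
  have hA1 : (0 : ℝ) < |A₀| + 1 := by positivity
  have h6 : 1 / (|A₀| + 1) * absHeight x ≤
      1 + ∑ b, absHeight (coeffs (d b) (F b)) + ∑ b, counting P (d b) (F b) x := by
    rw [one_div, inv_mul_le_iff₀ hA1]
    exact h3
  nlinarith

end Proof

theorem result {k : Type} [Field k] [NumberField k] {M n q r : ℕ}
    -- the variety
    (V : Set (MvPolynomial (Fin (M + 1)) k)) (hV : ∀ H ∈ V, ∃ e, H.IsHomogeneous e)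
    (hn : DimLE V n)
    -- the degrees
    (d : Fin q → ℕ) (hd : ∀ b, 0 < d b) (hq : n * r + 2 ≤ q)
    (h : ∀ b, r * (q - 1) < (q - n * r - 1) * (d b + 2 - r)) :
    Conclusion V d r :=
  conclusion Pool.Agent.NH29.GH.fmt hV hn hd hq h

end Pool.Agent.Results.MP_651af7_nt.HeightInequality
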