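import Mathlib
import Pool.Agent.NH28.QP.ASM
import Pool.Agent.NH28.QP.COR
import Pool.Agent.NH95.QP.Main

/-!
# All quadratic points on the line: Vojta's inequality up to the index of the order

Let `D` be an arbitrary reduced divisor of degree `q` on the projective line over `ℚ` (its points
need not be rational) and `S` a finite set of primes. For a quadratic number `x` with minimal
polynomial `f = a T² + b T + c` over `ℤ` let `ι_S(x)` be the prime-to-`S` part of the index of the
order `ℤ[a x]`, of discriminant `b² - 4 a c`, in the ring of integers of `ℚ(x)`. For **all** quadratic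
`x` outside `D`, with no exceptional set,

`∑_{v ∈ S ∪ {∞}} λ_{D,v}(x) + h_K(x) - d(x) ≤ ε h(x) + log ι_S(x) + C`,

Vojta's conjectured inequality up to the term `log ι_S(x)`, which is zero if and only if the order of
`x` is maximal outside `S`.

Proof. The coefficient vector of `f` is a rational point of `ℙ² = Sym² ℙ¹`, the local heights are
those of lines tangent to the conic `disc = 0`. Outside a curve this is the theorem of Evertse and
Ferretti for these lines and the conic. It remains to show, for every geometrically irreducible
plane curve `X` of degree `d` over `ℚ`, that an infinite sequence of rational points of `X` satisfies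
`∑_{v ∈ S ∪ {∞}} (λ_{H,v} + λ_{disc,v}) ≤ (4 + ε) h`, where `H` is the union of the lines. The
normalised local heights of all forms have limits along an ultrafilter, which are
multiples `c_v o_v` of valuations `o_v` of the function field of `X` (points of the normalisation).
The subspace theorem for the forms of degree `N` gives `∑ c_v ≤ 2 / d`, the product formula for
rational forms gives `∑ c_v ≤ 1 / d` if the sum is taken over the places which belong to one rational
point. So everything follows from the inequality `o(H disc) + o'(H disc) ≤ 4 d` for two distinct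
valuations `o`, `o'`. This is a consequence of Bézout's theorem unless `o` is tangent to a line `L` of
`H` and to the conic at a point of `L` and `o'` is at the intersection of two other lines of `H`; in
this case one uses in addition the inequality
`(m - 1) (j - 1) + (m' - 1) (j' - 1) ≤ (d - 1) (d - 2)` for the numbers of gaps of the two
semigroups, and a factorisation of polynomials for a family of rational curves.
-/

set_option autoImplicit false

namespace Pool.Agent.Results.MP_651af7_nt.QuadraticPointsComplete

open Polynomial IntermediateField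

/-- The absolute logarithmic height `(log M(f)) / deg f` of the roots of an irreducible primitive
`f` (`M` is the Mahler measure). -/
noncomputable def height (f : ℤ[X]) : ℝ :=
  Real.log (f.map (Int.castRingHom ℂ)).mahlerMeasure / f.natDegree

/-- `λ_{D,∞}(x)` for the divisor `D` of degree `q` given by `G`: the average over the conjugates
`z` of `x`, i.e. the roots of `f`, of `log (max(1,|z|)^q / |G(z)|)`. -/
noncomputable def lambdaInf (G : ℤ[X]) (q : ℕ) (f : ℤ[X]) : ℝ :=
  ((f.map (Int.castRingHom ℂ)).roots.map fun z =>
    Real.log (max 1 ‖z‖ ^ q / ‖(G.map (Int.castRingHom ℂ)).eval z‖)).sum / f.natDegree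

/-- `λ_{D,p}(x)`, the average over the conjugates `z` of `x` over `ℚ_p` of
`log (max(1,|z|_p)^q / |G(z)|_p)`; for primitive `f` the sum over the conjugates is
`-log |Res(f,G)|_p`, with `Res` the resultant for the degrees `deg f` and `q`. -/
noncomputable def lambdaP (p : ℕ) (G : ℤ[X]) (q : ℕ) (f : ℤ[X]) : ℝ :=
  (padicValInt p (resultant f G f.natDegree q) : ℝ) * Real.log p / f.natDegree

open Classical in
/-- The logarithmic discriminant `d(x)` of the field `ℚ(x)`. -/
noncomputable def logDisc (x : ℂ) : ℝ :=
  if _ : NumberField ℚ⟮x⟯ then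
    Real.log |(NumberField.discr ℚ⟮x⟯ : ℝ)| / Module.finrank ℚ ℚ⟮x⟯ else 0

/-- The logarithm of the prime-to-`S` part of a nonzero integer. -/
noncomputable def logPrimeTo (S : Finset ℕ) (n : ℤ) : ℝ :=
  Real.log |(n : ℝ)| - ∑ p ∈ S, (padicValInt p n : ℝ) * Real.log p

open Classical in
/-- `log ι_S(x)`, the logarithm of the prime-to-`S` part of the index `ι` of the order `ℤ[a x]` in
the ring of integers of `ℚ(x)`, where `disc f = ι² D` and `D` is the discriminant of `ℚ(x)`. -/
noncomputable def logIndex (S : Finset ℕ) (x : ℂ) (f : ℤ[X]) : ℝ :=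
  if _ : NumberField ℚ⟮x⟯ then
    (logPrimeTo S f.discr - logPrimeTo S (NumberField.discr ℚ⟮x⟯)) / 2 else 0

/-- **Vojta's inequality for all quadratic points up to the index of the order.** Let
`D` be the reduced effective divisor of degree `q` on the projective line over `ℚ` given by `G`
(`q = deg G`, or `q = deg G + 1` if `∞` is a point of `D`), `S` a finite set of primes, `ε > 0`.
There is a constant `C` such that all quadratic numbers `x` outside the support of `D`, with minimal
polynomial `f`, satisfy
`∑_{v ∈ S ∪ {∞}} λ_{D,v}(x) + h_K(x) - d(x) ≤ ε h(x) + log ι_S(x) + C`, where `h_K = -2 h`. -/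
theorem result (q : ℕ) (G : ℤ[X])
    (hG : Squarefree (G.map (Int.castRingHom ℚ))) (hGq : G.natDegree ≤ q)
    (hqG : q ≤ G.natDegree + 1) (S : Finset ℕ) (hS : ∀ p ∈ S, p.Prime) (ε : ℝ) (hε : 0 < ε) :
    ∃ C : ℝ, ∀ (x : ℂ) (f : ℤ[X]), Irreducible f → f.natDegree = 2 → aeval x f = 0 →
      aeval x G ≠ 0 →
      lambdaInf G q f + ∑ p ∈ S, lambdaP p G q f + (-2) * height f - logDisc x ≤
        ε * height f + logIndex S x f + C := by
  obtain ⟨C, hC⟩ := Pool.Agent.NH28.QP.quad_ASM Pool.Agent.NH95.QP.alg28 G hG q (by omega) S hS
    ε hε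
  refine ⟨C, fun x f hf hd hx hxG => ?_⟩
  have hR := Pool.Agent.NH28.resultant_ne f G q hGq hf (by omega) x hx hxG
  have hsum := Pool.Agent.H990R4.VJ.sum_log_eq f G q hGq hf.ne_zero hR
  rw [hd] at hR hsum
  have h1 := hC f hf hd hR
  have e1 : height f = Real.log (Pool.Agent.H990R4.VJ.mm f) / 2 := by
    unfold height; rw [hd]; rfl
  have e2 : lambdaInf G q f = (q * Real.log (Pool.Agent.H990R4.VJ.mm f) -
      Real.log |((resultant f G 2 q : ℤ) : ℝ)|) / 2 := by
    unfold lambdaInf; rw [hd, hsum]; norm_num
  have e3 : ∀ p, lambdaP p G q f = (padicValInt p (resultant f G 2 q) : ℝ) * Real.log p / 2 := by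
    intro p
    unfold lambdaP; rw [hd]; norm_num
  have h2 : lambdaInf G q f + ∑ p ∈ S, lambdaP p G q f + (-2) * height f ≤
      ε * height f + logPrimeTo S f.discr / 2 + C := by
    rw [e1, e2, Finset.sum_congr rfl fun p _ => e3 p]
    unfold Pool.Agent.NH28.QP.val_END at h1
    unfold logPrimeTo
    linarith
  obtain ⟨hN, hfr⟩ := Pool.Agent.NH28.QP.field_COR hf hd hx
  have h4 : logDisc x = Real.log |(NumberField.discr ℚ⟮x⟯ : ℝ)| / 2 := by
    unfold logDisc
    rw [dif_pos hN, hfr]
    norm_num
  have h5 : logIndex S x f =
      (logPrimeTo S f.discr - logPrimeTo S (NumberField.discr ℚ⟮x⟯)) / 2 := by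
    unfold logIndex
    rw [dif_pos hN]
  have h6 : logPrimeTo S (NumberField.discr ℚ⟮x⟯) ≤
      Real.log |(NumberField.discr ℚ⟮x⟯ : ℝ)| := by
    have h7 : 0 ≤ ∑ p ∈ S, (padicValInt p (NumberField.discr ℚ⟮x⟯) : ℝ) * Real.log p :=
      Finset.sum_nonneg fun p hp => mul_nonneg (Nat.cast_nonneg _)
        (Real.log_nonneg (by exact_mod_cast (hS p hp).one_lt.le))
    unfold logPrimeTo
    linarith
  rw [h4, h5]
  linarith

end Pool.Agent.Results.MP_651af7_nt.QuadraticPointsComplete
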