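import Pool.Agent.NH28.FewD

set_option autoImplicit false

/-!
# The subspace theorem on projective varieties for the points of bounded degree

`X = {G = 0}` is an integral closed subscheme of dimension `ν ≥ 1` of `ℙ^(n-1)` over a number field
`K`, and `D i = X ∩ {F i = 0}`, `i < q`, are hypersurface sections of degrees `d i`, no `ν + 1` of
which have a common point. Let `S` be ANY finite set of primes of `K` and `r ≥ 1`. For a point `x` of
`X` with residue field `L` of degree at most `r` over `K` and a place `w` of `L` let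
`ρ_w = [L : K] / [L_w : K_v] ≤ r`, where `v` is the place of `K` below `w`. Outside a proper closed
subset of `X` which does not depend on `S`,
`∑ w, (∑ i, λ_{D i, w}(x) / d i) / c(ν, ρ_w) ≤ (1 + ε) h(x) + C`, where `w` runs through the
archimedean places and the places over `S` of the residue field (or through a part of them), and
`c(ν, ρ) = (ν + 1) / (1 - ν (ρ - 1) (1 - (1 - 1 / ρ) ^ (1 / ν)))`.

The function `c(ν, ·)` is increasing with `c(ν, 1) = ν + 1`. So we get the constant `ν + 1` of the
subspace theorem for the points whose residue field has only one place over each place in `S`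
(`ρ_w = 1`), and the constant `c(ν, r)` in general; `c(ν, 1) = ν + 1` is the theorem of Evertse and
Ferretti and `c(1, r) = 2 r` the theorem of Wirsing. The constants do not depend on the number of
places.

Method: the subspace theorem (in Vojta's form, with exceptional hyperplanes independent of `S`) for
the `K`-rational points `(Tr (θ s_j(x)))_j`, where the `s_j` are a basis of the forms of large degree
on `X` and `θ` is an element of the residue field with prescribed sizes at all the places above `S`,
found with Minkowski's theorem; at each place of `K` the bases are adapted to the filtrations at all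
the places above it at once.
-/

namespace Pool.Agent.Results.MP_651af7_nt.SubspaceLocalDegrees

open NumberField IsDedekindDomain

/-- The point with homogeneous coordinates `x` lies on the projective scheme `{G = 0}`. -/
def On {K L : Type} [Field K] [Field L] [Algebra K L] {m n : ℕ}
    (G : Fin m → MvPolynomial (Fin n) K) (x : Fin n → L) : Prop :=
  ∀ k, MvPolynomial.aeval x (G k) = 0

/-- The places of a number field: the archimedean places and the primes. -/
abbrev Place (L : Type) [Field L] [NumberField L] : Type :=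
  InfinitePlace L ⊕ HeightOneSpectrum (𝓞 L)

/-- The place is archimedean or lies over a prime in `S`. -/
def Above {K L : Type} [Field K] [NumberField K] [Field L] [NumberField L] [Algebra K L]
    (S : Finset (HeightOneSpectrum (𝓞 K))) : Place L → Prop
  | Sum.inl _ => True
  | Sum.inr w => ∃ v ∈ S, w.asIdeal.LiesOver v.asIdeal

/-- The absolute value of a place. At a prime it is the normalised one, with the value
`(N v) ^ (-ord_v x)` at `x ≠ 0`. -/
noncomputable def absv {L : Type} [Field L] [NumberField L] : Place L → L → ℝ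
  | Sum.inl w => fun x => w x
  | Sum.inr v => fun x => FinitePlace.mk v x

/-- The exponent of the absolute value of a place in the product formula: `1` at real places and at
primes, `2` at complex places. -/
noncomputable def weight {L : Type} [Field L] [NumberField L] : Place L → ℝ
  | Sum.inl w => w.mult
  | Sum.inr _ => 1

/-- The degree of the completion of `L` at a place over the completion of `K` at the place below:
the quotient of the degrees over `ℝ` at an archimedean place, `e f` at a prime. -/
noncomputable def localDegree (K : Type) {L : Type} [Field K] [NumberField K] [Field L]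
    [NumberField L] [Algebra K L] : Place L → ℝ
  | Sum.inl w => w.mult / (w.comap (algebraMap K L)).mult
  | Sum.inr w => ((w.asIdeal.under (𝓞 K)).ramificationIdx' w.asIdeal *
      (w.asIdeal.under (𝓞 K)).inertiaDeg' w.asIdeal : ℕ)

/-- `ρ_w = [L : K] / [L_w : K_v]`. -/
noncomputable def ratio (K : Type) {L : Type} [Field K] [NumberField K] [Field L] [NumberField L]
    [Algebra K L] (p : Place L) : ℝ :=
  Module.finrank K L / localDegree K p

/-- The local height of the hypersurface `F = 0` of degree `d` at the point with homogeneous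
coordinates `x`. -/
noncomputable def weil {K L : Type} [Field K] [Field L] [NumberField L] [Algebra K L] {n : ℕ}
    (p : Place L) (d : ℕ) (F : MvPolynomial (Fin n) K) (x : Fin n → L) : ℝ :=
  Real.log ((⨆ j, absv p (x j)) ^ d / absv p (MvPolynomial.aeval x F))

/-- The sum over `i` of `1 / d i` times the proximity function of `F i = 0` at `x`, in absolute
normalisation, for the finite set `T` of places of `L`, with factors `a p`. -/
noncomputable def proximity {K L : Type} [Field K] [Field L] [NumberField L] [Algebra K L]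
    {n q : ℕ} (T : Finset (Place L)) (a : Place L → ℝ) (F : Fin q → MvPolynomial (Fin n) K)
    (d : Fin q → ℕ) (x : Fin n → L) : ℝ :=
  (∑ p ∈ T, a p * (weight p * ∑ i, weil p (d i) (F i) x / d i)) / Module.finrank ℚ L

/-- The absolute logarithmic height. -/
noncomputable def height {L : Type} [Field L] [NumberField L] {n : ℕ} (x : Fin n → L) : ℝ :=
  Height.logHeight x / Module.finrank ℚ L

/-- The residue field over `K` of the point with homogeneous coordinates `x` in `L` is `L`. -/
def ResidueField (K : Type) {L : Type} [Field K] [Field L] [Algebra K L] {n : ℕ}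
    (x : Fin n → L) : Prop :=
  IntermediateField.adjoin K {z : L | ∃ i j, z = x i / x j} = ⊤

/-- The constant `c(ν, ρ) = (ν + 1) / (1 - ν (ρ - 1) (1 - (1 - 1 / ρ) ^ (1 / ν)))`. -/
noncomputable def c (ν : ℕ) (ρ : ℝ) : ℝ :=
  (ν + 1) / (1 - ν * (ρ - 1) * (1 - (1 - 1 / ρ) ^ (1 / (ν : ℝ))))

/-- Let `X = {G = 0}` be an integral closed subscheme of dimension `ν ≥ 1` of the projective space
`ℙ^(n-1)` over a number field `K`, let `D i = X ∩ {F i = 0}`, `i < q`, be hypersurface sections
of degrees `d i ≥ 1`, no `ν + 1` of which have a common point, and let `r ≥ 1`. For every `ε > 0`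
there is a form `Z` over `K`, not vanishing identically on `X`, such that for every finite set `S` of
primes of `K` there is `C` with the following property for every point `x` of `X` of degree at most
`r` over `K` (with residue field `L`) with `Z(x) ≠ 0` which is not in any `D i`, and every finite set
`T` of places of `L` which are archimedean or lie over `S`:

* the sum over the places `w` in `T` of `(∑ i, λ_{D i, w}(x) / d i) / c(ν, ρ_w)` is at most
  `(1 + ε) h(x) + C`;
* for all real `ρ ∈ [1, r]` with `ρ_w ≤ ρ` for all `w ∈ T`, and for `ρ = r` in any case,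
  `∑ i, m_{T, D i}(x) / d i ≤ (c(ν, ρ) + ε) h(x) + C`. -/
theorem result (K : Type) [Field K] [NumberField K] (m n q ν r : ℕ) (hν : 1 ≤ ν) (hr : 1 ≤ r)
    (G : Fin m → MvPolynomial (Fin n) K) (g : Fin m → ℕ) (hG : ∀ k, (G k).IsHomogeneous (g k))
    (hX : (Ideal.span (Set.range G)).IsPrime)
    (hdim : Algebra.trdeg K (MvPolynomial (Fin n) K ⧸ Ideal.span (Set.range G)) = ν + 1)
    (F : Fin q → MvPolynomial (Fin n) K) (d : Fin q → ℕ) (hd : ∀ i, 1 ≤ d i)
    (hF : ∀ i, (F i).IsHomogeneous (d i))
    (hgp : ∀ (e : Fin (ν + 1) ↪ Fin q) (L : Type) [Field L] [Algebra K L] (x : Fin n → L),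
      On G x → (∀ k, MvPolynomial.aeval x (F (e k)) = 0) → x = 0)
    (ε : ℝ) (hε : 0 < ε) :
    ∃ Z : MvPolynomial (Fin n) K, Z ∉ Ideal.span (Set.range G) ∧ (∃ t, Z.IsHomogeneous t) ∧
      ∀ S : Finset (HeightOneSpectrum (𝓞 K)), ∃ C : ℝ,
        ∀ (L : Type) [Field L] [NumberField L] [Algebra K L], Module.finrank K L ≤ r →
          ∀ x : Fin n → L, x ≠ 0 → ResidueField K x → On G x →
            (∀ i, MvPolynomial.aeval x (F i) ≠ 0) → MvPolynomial.aeval x Z ≠ 0 →
            ∀ T : Finset (Place L), (∀ p ∈ T, Above S p) →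
              proximity T (fun p => (c ν (ratio K p))⁻¹) F d x ≤ (1 + ε) * height x + C ∧
              (∀ ρ : ℝ, 1 ≤ ρ → ρ ≤ r → (∀ p ∈ T, ratio K p ≤ ρ) →
                proximity T (fun _ => 1) F d x ≤ (c ν ρ + ε) * height x + C) ∧
              proximity T (fun _ => 1) F d x ≤ (c ν r + ε) * height x + C := by
  classical
  have hweil : ∀ (L : Type) [Field L] [NumberField L] [Algebra K L] (p : Place L) (e : ℕ)
      (H : MvPolynomial (Fin n) K) (x : Fin n → L), weil p e H x =
      Pool.Agent.W180.OP.lam (Pool.Agent.W180.OP.av p) e (Pool.Agent.W180.OP.bc L H) x := by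
    intro L _ _ _ p e H x
    unfold weil Pool.Agent.W180.OP.lam
    rw [Pool.Agent.W180.OP.eval_bc]
    cases p <;> rfl
  have hw : ∀ (L : Type) [Field L] [NumberField L] (p : Place L),
      weight p = Pool.Agent.W180.OP.wt p := by
    intro L _ _ p
    cases p <;> rfl
  have hprox : ∀ (L : Type) [Field L] [NumberField L] [Algebra K L] (T : Finset (Place L))
      (a : Place L → ℝ) (x : Fin n → L), proximity T a F d x =
      (∑ p ∈ T, a p * (Pool.Agent.W180.OP.wt p * ∑ i,
      Pool.Agent.W180.OP.lam (Pool.Agent.W180.OP.av p) (d i)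
        (Pool.Agent.W180.OP.bc L (F i)) x / d i)) / Module.finrank ℚ L := by
    intro L _ _ _ T a x
    unfold proximity
    congr 1
    refine Finset.sum_congr rfl fun p _ => ?_
    rw [hw]
    congr 2
    exact Finset.sum_congr rfl fun i _ => by rw [hweil]
  have hlo : ∀ (L : Type) [Field L] [NumberField L] [Algebra K L] (p : Place L),
      localDegree K p = Pool.Agent.NH28.lo K p := by
    intro L _ _ _ p
    cases p <;> rfl
  have hr1 : (1 : ℝ) ≤ r := by exact_mod_cast hr
  have hcr := Pool.Agent.NH28.one_le_cstR hν hr1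
  have hν0 : (0 : ℝ) ≤ ν := Nat.cast_nonneg _
  have hcr0 : 0 < Pool.Agent.NH28.cstR ν r := by linarith
  set ε1 : ℝ := min ε (ε / Pool.Agent.NH28.cstR ν r) with hε1
  have hε10 : 0 < ε1 := lt_min hε (div_pos hε hcr0)
  have hεε : ε1 * Pool.Agent.NH28.cstR ν r ≤ ε := by
    have h1 : ε1 ≤ ε / Pool.Agent.NH28.cstR ν r := min_le_right _ _
    rwa [le_div_iff₀ hcr0] at h1
  -- the weighted inequality
  have hkey : ∃ Z : MvPolynomial (Fin n) K, Z ∉ Ideal.span (Set.range G) ∧
      (∃ t, Z.IsHomogeneous t) ∧ ∀ S : Finset (Pool.Agent.W180.OP.Pl K), ∃ C : ℝ, 0 ≤ C ∧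
        ∀ (L : Type) [Field L] [NumberField L] [Algebra K L], Module.finrank K L ≤ r →
        ∀ x : Fin n → L, x ≠ 0 → (∀ k, MvPolynomial.aeval x (G k) = 0) →
        IntermediateField.adjoin K {z | ∃ i j, z = x i / x j} = ⊤ → MvPolynomial.aeval x Z ≠ 0 →
        (∀ i, MvPolynomial.aeval x (F i) ≠ 0) →
        ∀ (T : Finset (Pool.Agent.W180.OP.Pl L))
          (V : Pool.Agent.W180.OP.Pl L → Pool.Agent.W180.OP.Pl K),
          (∀ w ∈ T, V w ∈ S ∧ Pool.Agent.NH28.Ov (V w) w) →
        ∑ w ∈ T, Pool.Agent.W180.OP.wt w * (∑ i, Pool.Agent.W180.OP.lam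
          (Pool.Agent.W180.OP.av w) (d i) (Pool.Agent.W180.OP.bc L (F i)) x / d i) /
          Pool.Agent.NH28.cstR ν (Module.finrank K L / Pool.Agent.NH28.nn (V w) w) ≤
          (1 + ε1) * Height.logHeight x + C := by
    rcases Nat.lt_or_ge q (ν + 1) with hq | hq
    · obtain ⟨C, hC0, hC⟩ := Pool.Agent.NH28.t2few hν (Nat.lt_succ_iff.1 hq) F d hd hF
      refine ⟨1, fun h => hX.ne_top ((Ideal.eq_top_iff_one _).2 h), ⟨0,
        MvPolynomial.isHomogeneous_one _ _⟩, fun S => ⟨C * (Module.finrank ℚ K * r),
          by positivity, ?_⟩⟩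
      intro L _ _ _ hrL x hx hGx _ _ hFx T V hT
      refine (hC L x hx hFx T V fun w hw => (hT w hw).2).trans ?_
      have hh := Height.logHeight_nonneg x
      have hfq : (Module.finrank ℚ L : ℝ) ≤ Module.finrank ℚ K * r := by
        have h1 : Module.finrank ℚ K * Module.finrank K L = Module.finrank ℚ L :=
          Module.finrank_mul_finrank ℚ K L
        rw [← h1]
        push_cast
        exact mul_le_mul_of_nonneg_left (by exact_mod_cast hrL) (Nat.cast_nonneg _)
      have h2 := mul_le_mul_of_nonneg_left hfq hC0
      have h3 : 0 ≤ ε1 * Height.logHeight x := mul_nonneg hε10.le hh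
      linarith
    · exact Pool.Agent.NH28.t2w hν hr hq G g hG hX (by rw [hdim]; push_cast; rfl) F d hd hF
        (fun e L _ _ x h1 h2 => hgp e L x h1 h2) ε1 hε10
  obtain ⟨Z, hZ, hZh, hmain⟩ := hkey
  refine ⟨Z, hZ, hZh, fun S => ?_⟩
  set S' : Finset (Pool.Agent.W180.OP.Pl K) := Finset.univ.image Sum.inl ∪ S.image Sum.inr with hS'
  obtain ⟨C, hC0, hC⟩ := hmain S'
  obtain ⟨C', hC'0, hC'⟩ := Pool.Agent.NH28.t2u (K := K) (r := r) hν F d hd hF ε ε1 hε10 hεε S' C
    hC0
  refine ⟨C + C', ?_⟩
  intro L _ _ _ hrL x hx hres hGx hFx hZx T hT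
  have hN : (1 : ℝ) ≤ Module.finrank ℚ L := by
    exact_mod_cast (Module.finrank_pos : 0 < Module.finrank ℚ L)
  have hN0 : (0 : ℝ) < Module.finrank ℚ L := by linarith
  have hh := Height.logHeight_nonneg x
  obtain ⟨V, hV⟩ := Pool.Agent.NH28.exists_V S' T (by
    intro w hw
    have h2 := hT w hw
    cases w with
    | inl w =>
      refine ⟨Sum.inl (w.comap (algebraMap K L)), ?_, rfl⟩
      exact Finset.mem_union_left _ (Finset.mem_image_of_mem _ (Finset.mem_univ _))
    | inr w =>
      obtain ⟨v, hv, hvw⟩ := h2
      exact ⟨Sum.inr v, Finset.mem_union_right _ (Finset.mem_image_of_mem _ hv), hvw⟩)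
    (Sum.inl (Classical.arbitrary _))
  have hratio : ∀ w ∈ T, (Module.finrank K L : ℝ) / Pool.Agent.NH28.nn (V w) w = ratio K w := by
    intro w hw
    rw [Pool.Agent.NH28.nn_eq_lo (hV w hw).2, ← hlo]
    rfl
  have h1 := hC L hrL x hx hGx hres hZx hFx T V hV
  have hle : ∀ {A B : ℝ}, A ≤ B * Height.logHeight x + C →
      A / Module.finrank ℚ L ≤ B * height x + (C + C') := by
    intro A B h
    rw [div_le_iff₀ hN0]
    have e1 : (B * height x + (C + C')) * Module.finrank ℚ L =
        B * Height.logHeight x + (C + C') * Module.finrank ℚ L := by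
      unfold height
      field_simp
    rw [e1]
    have h2 : C + C' ≤ (C + C') * Module.finrank ℚ L := le_mul_of_one_le_right (by linarith) hN
    linarith
  have hle' : ∀ {A B : ℝ}, A ≤ B * Height.logHeight x + C' →
      A / Module.finrank ℚ L ≤ B * height x + (C + C') := by
    intro A B h
    rw [div_le_iff₀ hN0]
    have e1 : (B * height x + (C + C')) * Module.finrank ℚ L =
        B * Height.logHeight x + (C + C') * Module.finrank ℚ L := by
      unfold height
      field_simp
    rw [e1]
    have h2 : C + C' ≤ (C + C') * Module.finrank ℚ L := le_mul_of_one_le_right (by linarith) hN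
    linarith
  have hunif : ∀ ρ : ℝ, 1 ≤ ρ → ρ ≤ r → (∀ p ∈ T, ratio K p ≤ ρ) →
      proximity T (fun _ => 1) F d x ≤ (c ν ρ + ε) * height x + (C + C') := by
    intro ρ hρ1 hρr hρ
    have h2 := hC' L hrL x hx hFx T V hV h1 ρ hρ1 hρr (by
      intro w hw
      rw [hratio w hw]
      exact hρ w hw)
    rw [hprox]
    simp only [one_mul]
    exact hle' h2
  refine ⟨?_, hunif, hunif r hr1 le_rfl ?_⟩
  · rw [hprox]
    have h2 : (1 + ε1) * Height.logHeight x + C ≤ (1 + ε) * Height.logHeight x + C := by
      have h3 : ε1 ≤ ε := min_le_left _ _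
      have h4 := mul_le_mul_of_nonneg_right h3 hh
      linarith
    refine hle (le_trans (le_of_eq ?_) (h1.trans h2))
    refine Finset.sum_congr rfl fun w hw => ?_
    rw [hratio w hw]
    have e1 : c ν (ratio K w) = Pool.Agent.NH28.cstR ν (ratio K w) := rfl
    rw [e1, div_eq_inv_mul]
  · intro w hw
    rw [← hratio w hw]
    have h3 := Pool.Agent.NH28.one_le_nn (hV w hw).2
    have h4 : (Module.finrank K L : ℝ) / Pool.Agent.NH28.nn (V w) w ≤ Module.finrank K L :=
      div_le_self (Nat.cast_nonneg _) h3
    refine h4.trans ?_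
    exact_mod_cast hrL

end Pool.Agent.Results.MP_651af7_nt.SubspaceLocalDegrees
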